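import Pool.Agent.E8helper21.Q2.Bas

/-!
The curves `y² = x³ + 2 D x` over `ℚ(i)`: the definitions for the second Hecke character
(with the inverse of the quartic symbol of `-2`).
-/

set_option autoImplicit false
set_option linter.unusedSectionVars false

open Filter Complex
open scoped Topology PeriodPair
open H667R3 hiding sq
open Pool.Agent.TH936.CM Pool.Agent.W192.HK

namespace Pool.Agent.E8helper75.QK

open Pool.Agent.Y699
open Pool.Agent.E8helper21.Q2
open H385 (ZI RQ im1 nrm)
open Pool.Agent.H304R3.HK (tc HC LH)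
open Pool.Agent.W164.RC (tc_mul tc_star two2 prim_iff_dvd unit_norm unit_cases)
open Pool.Agent.H304R2.EC.A1 (prim prim_mul prim_cancel prim_one prim_norm_odd prim_star eq_one_of_prim
  norm_def' re_mul' im_mul' eq_of_dvd prim_ne_zero exists_prim)

/-- the conjugate of `x2`, for primary `a` the quartic symbol `(2 / a)` -/
def y2 (a : ZI) : ZI := star (x2 a)

lemma y2_norm (a : ZI) : (y2 a).norm = 1 := by
  unfold y2
  rw [Zsqrtd.norm_conj, x2_norm]

lemma y2_one : y2 1 = 1 := by decide

lemma y2_per {a b : ZI} (h : a.im % 8 = b.im % 8) : y2 a = y2 b := by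
  unfold y2
  rw [x2_per h]

lemma y2_mul {a b : ZI} (ha : prim a) (hb : prim b) : y2 (a * b) = y2 a * y2 b := by
  unfold y2
  rw [x2_mul ha hb, star_mul, mul_comm]

lemma y2_tc (a : ZI) : ‖tc (y2 a)‖ = 1 := unit_tc (y2_norm a)

variable {ι : Type} [DecidableEq ι] {pr : ι → ZI}

open Classical in
/-- the coefficients of the central value -/
noncomputable def cy (pr : ι → ZI) (V : Finset ι) (a : ZI) : ℂ :=
  if prim a then tc (y2 a * c4 pr V on1 a) else 0

/-- the Hecke character -/
noncomputable def X8m (hp : PF pr) (V : Finset ι) : ZI →* ℂ where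
  toFun a := tc (un a) * (starRingEnd ℂ) (tc (y2 (un a * a) * c4 pr V on1 (un a * a)))
  map_one' := by
    rw [un_prim prim_one, one_mul, y2_one, c4_one hp, tc_one, mul_one, tc_one]
    simp
  map_mul' := by
    intro a b
    by_cases ha : a.norm % 2 = 1
    · by_cases hb : b.norm % 2 = 1
      · obtain ⟨u, hu⟩ := exists_Um ha
        obtain ⟨w, hw⟩ := exists_Um hb
        have e : un (a * b) * (a * b) = (un a * a) * (un b * b) := by rw [un_mul]; ring
        have hu' : prim (un a * a) := by rw [un_eq hu]; exact hu.2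
        have hw' : prim (un b * b) := by rw [un_eq hw]; exact hw.2
        rw [e, c4_mul hp, un_mul, y2_mul hu' hw']
        simp only [tc_mul, map_mul]
        ring
      · rw [un_even hb, un_mul, un_even hb, mul_zero, tc_zero]
        ring
    · rw [un_even ha, un_mul, un_even ha, zero_mul, tc_zero]
      ring

lemma X8m_apply (hp : PF pr) (V : Finset ι) (a : ZI) :
    X8m hp V a = tc (un a) * (starRingEnd ℂ) (tc (y2 (un a * a) * c4 pr V on1 (un a * a))) := rfl

lemma X8m_prim (hp : PF pr) (V : Finset ι) {a : ZI} (ha : prim a) :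
    X8m hp V a = (starRingEnd ℂ) (tc (y2 a * c4 pr V on1 a)) := by
  rw [X8m_apply, un_prim ha, tc_one, one_mul, one_mul]

/-- the function with the character `i^(-x - y)` -/
noncomputable def Km (L : PeriodPair) (Ω z : ℂ) : ℂ := -Kf L Ω (-z)

/-- the character `i^(-x - y)` -/
noncomputable def tJ (b : ZI) : ℂ := tI (-b)

/-- the combinatorial factor: forests, counted with the number of the roots -/
noncomputable def NO {κ : Type} [Fintype κ] [DecidableEq κ] (w : κ → ZMod 2) (e : κ → κ → ZMod 2)
    (S : Finset κ) : ZMod 2 :=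
  ∑ r ∈ S, w r * (Ff.MM (fun v => w v + e r v) e (S.erase r) (S.erase r)).det

/-- the right hand side of the recursion -/
noncomputable def RO {κ : Type} [Fintype κ] [DecidableEq κ] (w : κ → ZMod 2) (V : Finset κ) : ZMod 2 :=
  if V.card = 1 then ∑ v ∈ V, w v else 0

end Pool.Agent.E8helper75.QK
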