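import Pool.Agent.E8helper75.QK.Bas
import Pool.Agent.E8helper21.Q2.Stm
import Pool.Agent.R428.G.Val
import Pool.Agent.R428.G.Ls
import Pool.Agent.R428.G.Gm
import Pool.Agent.R428.G.Sel
import Pool.Agent.R428.G.Tor
import Pool.Agent.R428.G.Conv
import Pool.Agent.Y697.MQ.KL1
import Pool.Agent.Y699.Pd
import Pool.Agent.Y715.Z.Tpr
import Pool.Agent.Y715.Z.Disc

/-!
The statements of the pieces for the curves `y² = x³ + 2 D x` over `ℚ(i)`, `D = ∏ l`, `l ∈ S`, a product of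
distinct primary primes. Each `S_X` is a statement; its proof is `t_X` in the file of the seat that does it.
-/

set_option autoImplicit false
set_option linter.unusedSectionVars false

open Filter Complex NumberField IsDedekindDomain
open scoped Topology PeriodPair
open H667R3 hiding sq
open Pool.Agent.TH936.CM Pool.Agent.W192.HK

namespace Pool.Agent.E8helper75.QK

open Pool.Agent.Y699 (GLat OT Cg RS PF PP DD c4 on1 wt em pi1 dz LG plc)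
open Pool.Agent.E8helper21.Q2
open H385 (ZI RQ im1 nrm)
open Pool.Agent.H304R3.HK (tc HC LH)
open Pool.Agent.W164.RC (two2)
open Pool.Agent.H304R2.EC.A1 (prim)
open Pool.Agent.Y697.MQ (OP gA gθ)
open Pool.Agent.Y697.PP (Mt)
open Pool.Agent.Y715.Z (em0)
open Pool.Agent.Y682 (vv IsT)
open Pool.Agent.Y696 (NonsingRed)

/-- the coefficient `2 D` -/
def B2 (S : Finset GaussianInt) : GaussianInt := 2 * ∏ l ∈ S, l

/-! ### the places -/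

/-- MINK: the equation is minimal -/
def S_MINK : Prop := ∀ (K : Type) [Field K] [NumberField K] (e : ZI ≃+* 𝓞 K)
  (S : Finset GaussianInt), (∀ l ∈ S, OP l) → ∀ v : HeightOneSpectrum (𝓞 K),
  WeierstrassCurve.IsMinimal (v.adicCompletionIntegers K)
    (Pool.Agent.Y715.Z.q4 (algebraMap K (v.adicCompletion K) (em0 e (B2 S))))

open Classical in
/-- the Tamagawa numbers -/
noncomputable def cK {K : Type} [Field K] [NumberField K] (e : ZI ≃+* 𝓞 K) (S : Finset GaussianInt)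
    (v : HeightOneSpectrum (𝓞 K)) : ℕ := if e (B2 S) ∈ v.asIdeal then 2 else 1

open scoped Classical in
/-- TAMK: the Tamagawa numbers -/
def S_TAMK : Prop := ∀ (K : Type) [Field K] [NumberField K] (e : ZI ≃+* 𝓞 K)
  (S : Finset GaussianInt), (∀ l ∈ S, OP l) → ∀ v : HeightOneSpectrum (𝓞 K),
  ∃ H : AddSubgroup
      (Pool.Agent.Y715.Z.q4 (algebraMap K (v.adicCompletion K) (em0 e (B2 S)))).toAffine.Point,
    (∀ P, P ∈ H ↔ NonsingRed (vv v)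
      (Pool.Agent.Y715.Z.q4 (algebraMap K (v.adicCompletion K) (em0 e (B2 S)))) P) ∧
    H.index = cK e S v

/-- TAMP: their product -/
def S_TAMP : Prop := ∀ (K : Type) [Field K] [NumberField K] (e : ZI ≃+* 𝓞 K)
  (S : Finset GaussianInt), (∀ l ∈ S, OP l) →
  {v : HeightOneSpectrum (𝓞 K) | cK e S v ≠ 1}.Finite ∧
    ∏ᶠ v : HeightOneSpectrum (𝓞 K), cK e S v = 2 * 2 ^ S.card

/-- TORK: the order of the torsion subgroup is twice an odd number -/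
def S_TORK : Prop := ∀ (K : Type) [Field K] [NumberField K] [DecidableEq K] (e : ZI ≃+* 𝓞 K)
  (S : Finset GaussianInt), (∀ l ∈ S, OP l) → ∃ t : ℕ, Odd t ∧
    Nat.card (AddCommGroup.torsion
      (Pool.Agent.Y715.Z.q4 (em0 e (B2 S)) : WeierstrassCurve K).toAffine.Point) = 2 * t

/-! ### the descent -/

/-- SHAK: the descent -/
def S_SHAK : Prop := ∀ (K : Type) [Field K] [NumberField K] (e : ZI ≃+* 𝓞 K)
  (S : Finset GaussianInt), (∀ l ∈ S, OP l) →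
  (∀ t : GaussianInt → ZMod 2, (∀ v ∈ S, gθ v * t v + ∑ u ∈ S, gA v u * (t v + t u) = 0) →
    ∀ v ∈ S, t v = 0) →
  ∀ W : WeierstrassCurve K, IsT W 0 (em0 e (B2 S)) →
    Module.finrank ℤ (Pool.Agent.Y682.MP W) = 0 ∧
      ∀ x : Pool.Agent.TH841.NF.D.Sha W, 2 • x = 0 → x = 0

/-- CNVK: the converse -/
def S_CNVK : Prop := ∀ (K : Type) [Field K] [NumberField K] (e : ZI ≃+* 𝓞 K)
  (S : Finset GaussianInt), (∀ l ∈ S, OP l) → (Mt gA gθ S).det = 0 →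
  Finite (Pool.Agent.Y715.Z.q4 (em0 e (B2 S)) : WeierstrassCurve K).toAffine.Point →
  (∀ x : Pool.Agent.TH841.NF.D.Sha (Pool.Agent.Y715.Z.q4 (em0 e (B2 S)) : WeierstrassCurve K),
    2 • x = 0 → x = 0) → False

/-! ### the L-series -/

/-- LSK: the L-series -/
def S_LSK : Prop := ∀ (K : Type) [Field K] [NumberField K] (e : ZI ≃+* 𝓞 K)
  (S : Finset GaussianInt), (∀ l ∈ S, OP l) → ∀ (c : ZI) (X : ZI →* ℂ), HC c X → X pi1 = 0 →
  (∀ z : ZI, PP z → z ∣ ∏ l ∈ S, l → X z = 0) →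
  (∀ z : ZI, PP z → ¬ z ∣ ∏ l ∈ S, l →
    X z = (starRingEnd ℂ) (tc (Pool.Agent.Y699.q4 z (-B2 S)))) →
  ∀ s : ℂ, 3 / 2 < s.re →
    LSeriesSummable ((fun n : ℤ => (n : ℂ)) ∘
      (Pool.Agent.Y715.Z.q4 (em0 e (B2 S)) : WeierstrassCurve K).LFunction) s ∧
    LG X s = (Pool.Agent.Y715.Z.q4 (em0 e (B2 S)) : WeierstrassCurve K).LSeries s

/-- VALZ: the valuation of the predicted order of Sha -/
def S_VALZ : Prop := ∀ (Γ : Type) [LinearOrderedCommGroupWithZero Γ] (v : Valuation ℂ Γ), v 2 < 1 →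
  ∀ (L : PeriodPair) (Ω : ℂ), GLat L Ω → ∀ m : ℂ, m ^ 4 = -8 → ∀ (n : ℕ) (M : ℂ) (c : Prop),
  (∀ w : Valuation ℂ Γ, w 2 < 1 → w (M / (Ω / tc two2 * m * (1 + I) ^ n)) ≤ 1 ∧
    (w (M / (Ω / tc two2 * m * (1 + I) ^ n)) = 1 ↔ c)) →
  ∀ D : ZI, D.norm % 2 = 1 → ∀ δ : ℂ, ‖δ‖ = 2 * ‖tc D‖ → ∀ Λ : PeriodPair, Λ.g₂ = -4 * δ →
  Λ.g₃ = 0 → ∀ t : ℕ, Odd t →
    v (M * (starRingEnd ℂ) M * 2 * ((2 * t : ℕ) : ℂ) ^ 2 /
      (((2 * |((starRingEnd ℂ) Λ.ω₁ * Λ.ω₂).im| : ℝ) : ℂ) * ((2 * 2 ^ n : ℕ) : ℂ))) ≤ 1 ∧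
    (v (M * (starRingEnd ℂ) M * 2 * ((2 * t : ℕ) : ℂ) ^ 2 /
      (((2 * |((starRingEnd ℂ) Λ.ω₁ * Λ.ω₂).im| : ℝ) : ℂ) * ((2 * 2 ^ n : ℕ) : ℂ))) = 1 ↔ c)

/-! ### the second character -/

/-- PRD -/
def S_PRD : Prop := ∀ (L : PeriodPair) (Ω : ℂ), GLat L Ω → ∀ w : ℂ, w ∉ L.lattice →
  Kf L Ω w * Kf L Ω (-w) = X0 L Ω - ℘[L] w

/-- VALm -/
def S_VALm : Prop := ∀ (L : PeriodPair) (Ω : ℂ), GLat L Ω →
  ∀ (Γ : Type) [LinearOrderedCommGroupWithZero Γ] (v : Valuation ℂ Γ), v 2 < 1 →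
  ∀ m : ℂ, m ^ 4 = -8 → ∀ P : ℂ, OT L P →
    Cg v ((Km L Ω (dz Ω + P) + Km L Ω (dz Ω - P)) / m) 1 ∧ v ((1 + I) * Km L Ω (dz Ω - P) / m) < 1

/-- LKm -/
def S_LKm : Prop := ∀ (L : PeriodPair) (Ω : ℂ), GLat L Ω → ∀ z : ℂ, z ∉ L.lattice →
  Tendsto (fun δ : ℝ => ∑' b : ZI, tJ b * fd δ (z + Ω * tc b)) (𝓝[>] 0) (𝓝 (Km L Ω z))

/-- HCKm -/
def S_HCKm : Prop := ∀ (ι : Type) [DecidableEq ι] (pr : ι → ZI) (hp : PF pr) (V : Finset ι),
  HC (cn8 pr V) (X8m hp V)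

/-- LHEm -/
def S_LHEm : Prop := ∀ (ι : Type) [DecidableEq ι] (pr : ι → ZI) (hp : PF pr) (V : Finset ι) (l : ℂ),
  Tendsto (RS (cy pr V)) (𝓝[>] 0) (𝓝 l) → LH (X8m hp V) (1 / 2) = (starRingEnd ℂ) l

/-- CHE: the values of the two characters -/
def S_CHE : Prop := ∀ (ι : Type) [DecidableEq ι] (pr : ι → ZI) (hp : PF pr) (V : Finset ι),
  (∀ z : ZI, PP z → z ∣ DD pr V → X8 hp V z = 0 ∧ X8m hp V z = 0) ∧
  (∀ z : ZI, PP z → ¬ z ∣ DD pr V →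
    (∑ i ∈ V, wt pr i = 0 →
      X8 hp V z = (starRingEnd ℂ) (tc (Pool.Agent.Y699.q4 z (-(2 * DD pr V))))) ∧
    (∑ i ∈ V, wt pr i = 1 →
      X8m hp V z = (starRingEnd ℂ) (tc (Pool.Agent.Y699.q4 z (-(2 * DD pr V))))))

/-- LAE: the determinants -/
def S_LAE : Prop := ∀ (S : Finset GaussianInt), (∀ l ∈ S, OP l) →
  (∑ i, wt (fun l : {l // l ∈ S} => (l : ZI)) i = 0 →
    (NN (wt (fun l : {l // l ∈ S} => (l : ZI))) (em (fun l : {l // l ∈ S} => (l : ZI)))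
      Finset.univ = 1 ↔ (Mt gA gθ S).det ≠ 0)) ∧
  (∑ i, wt (fun l : {l // l ∈ S} => (l : ZI)) i = 1 →
    (NO (wt (fun l : {l // l ∈ S} => (l : ZI))) (em (fun l : {l // l ∈ S} => (l : ZI)))
      Finset.univ = 1 ↔ (Mt gA gθ S).det ≠ 0))

end Pool.Agent.E8helper75.QK
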