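import Pool.Agent.E8helper75.QK.Stm

/-!
The determinants: the factors of the two characters are the determinant of the matrix of the graph.
-/

set_option autoImplicit false
set_option linter.unusedSectionVars false

namespace Pool.Agent.E8helper75.QK

open Pool.Agent.Y699 (PF PP em wt em_self em_symm)
open Pool.Agent.Y699.Ff
open Pool.Agent.E8helper21.Q2
open H385 (ZI RQ im1 nrm)
open Pool.Agent.Y697.MQ (OP gA gθ Pr ci leg)
open Pool.Agent.Y697.PP (Mt)
open Pool.Agent.R428.G (toPP leg_qr)

section alg

variable {κ : Type} [Fintype κ] [DecidableEq κ]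

lemma sym_sum (S : Finset κ) (f : κ → κ → ZMod 2) (hf : ∀ a b, f a b = f b a) :
    ∑ r ∈ S, ∑ s ∈ S, f r s = ∑ r ∈ S, f r r := by
  induction S using Finset.induction_on with
  | empty => simp
  | insert a S ha ih =>
    rw [Finset.sum_insert ha, Finset.sum_insert ha, Finset.sum_insert ha, ← ih]
    have h1 : ∑ x ∈ S, ∑ s ∈ insert a S, f x s = ∑ x ∈ S, f a x + ∑ x ∈ S, ∑ s ∈ S, f x s := by
      rw [← Finset.sum_add_distrib]
      refine Finset.sum_congr rfl fun x _ => ?_
      rw [Finset.sum_insert ha, hf x a]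
    rw [h1]
    have h2 := CharTwo.add_self_eq_zero (∑ x ∈ S, f a x)
    linear_combination h2

lemma minor (w : κ → ZMod 2) (e : κ → κ → ZMod 2) (he : ∀ v, e v v = 0) (hs : ∀ u v, e u v = e v u)
    (r : κ) : (MM (fun v => w v + e r v) e (Finset.univ.erase r) (Finset.univ.erase r)).det =
      (MM w e Finset.univ Finset.univ).adjugate r r := by
  classical
  rw [Matrix.adjugate_apply, det_perm, det_perm]
  refine Finset.sum_congr rfl fun σ _ => ?_
  have hM : ∀ u v, MM w e Finset.univ Finset.univ u v = if u = v then w v + ∑ x, e x v else e u v := by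
    intro u v
    unfold MM dg
    rw [if_pos (Finset.mem_univ v), if_pos (Finset.mem_univ u)]
  have hE : ∀ v, v ≠ r → ∑ x ∈ Finset.univ.erase r, e x v = ∑ x, e x v - e r v := by
    intro v _
    rw [← Finset.add_sum_erase Finset.univ (fun x => e x v) (Finset.mem_univ r)]
    ring
  by_cases h : σ r = r
  · refine Finset.prod_congr rfl fun v _ => ?_
    by_cases hv : v = r
    · subst hv
      rw [h, Matrix.updateRow_self, Pi.single_eq_same]
      unfold MM
      rw [if_neg (by simp), if_pos rfl]
    · have hσ : σ v ≠ r := fun h' => hv (σ.injective (h'.trans h.symm))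
      rw [Matrix.updateRow_ne hσ, hM]
      unfold MM dg
      rw [if_pos (by simp [hv])]
      by_cases h3 : σ v = v
      · rw [if_pos h3, if_pos h3, hE v hv]
        ring
      · rw [if_neg h3, if_neg h3, if_pos (by simp [hσ])]
  · rw [Finset.prod_eq_zero (Finset.mem_univ r), Finset.prod_eq_zero (Finset.mem_univ (σ.symm r))]
    · rw [Equiv.apply_symm_apply, Matrix.updateRow_self, Pi.single_eq_of_ne]
      intro h'
      apply h
      have := congrArg σ h'
      rw [Equiv.apply_symm_apply] at this
      exact this.symm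
    · unfold MM
      rw [if_neg (by simp), if_neg h]

lemma NO_eq (w : κ → ZMod 2) (e : κ → κ → ZMod 2) (he : ∀ v, e v v = 0)
    (hs : ∀ u v, e u v = e v u) :
    NO w e Finset.univ = (MM w e Finset.univ Finset.univ).det * ∑ v, w v := by
  set M := MM w e Finset.univ Finset.univ with hMd
  have hM : ∀ u v, M u v = if u = v then w v + ∑ x, e x v else e u v := by
    intro u v
    rw [hMd]
    unfold MM dg
    rw [if_pos (Finset.mem_univ v), if_pos (Finset.mem_univ u)]
  have hsym : M.transpose = M := by
    ext u v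
    rw [Matrix.transpose_apply, hM, hM]
    by_cases h : u = v
    · rw [h]
    · rw [if_neg h, if_neg (fun h' => h h'.symm), hs]
  have hadj : ∀ r s, M.adjugate r s = M.adjugate s r := by
    intro r s
    have := Matrix.adjugate_transpose M
    rw [hsym] at this
    exact (congrFun (congrFun this s) r).symm ▸ rfl
  have hw : M.mulVec (fun _ => 1) = w := by
    funext u
    rw [Matrix.mulVec, dotProduct]
    have h1 : ∀ v, M u v * 1 = e u v + (if u = v then w v + ∑ x, e x v else 0) := by
      intro v
      rw [hM, mul_one]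
      by_cases h : u = v
      · rw [if_pos h, if_pos h, h, he, zero_add]
      · rw [if_neg h, if_neg h, add_zero]
    rw [Finset.sum_congr rfl fun v _ => h1 v, Finset.sum_add_distrib, Finset.sum_ite_eq,
      if_pos (Finset.mem_univ u)]
    have h2 : ∑ x, e x u = ∑ x, e u x := Finset.sum_congr rfl fun x _ => hs x u
    rw [h2]
    have h3 := CharTwo.add_self_eq_zero (∑ x, e u x)
    linear_combination h3
  unfold NO
  have h1 : ∑ r, w r * (MM (fun v => w v + e r v) e (Finset.univ.erase r)
      (Finset.univ.erase r)).det = ∑ r, w r * M.adjugate r r * w r := by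
    refine Finset.sum_congr rfl fun r _ => ?_
    rw [minor w e he hs]
    have : ∀ x y : ZMod 2, x * y = x * y * x := by decide
    exact this _ _
  rw [h1, ← sym_sum Finset.univ (fun r s => w r * M.adjugate r s * w s) (fun a b => by
    rw [hadj a b]; ring)]
  have h2 : M.mulVec (M.adjugate.mulVec w) = M.det • w := by
    rw [Matrix.mulVec_mulVec, Matrix.mul_adjugate, Matrix.smul_mulVec, Matrix.one_mulVec]
  have h3 : ∑ r, ∑ s, w r * M.adjugate r s * w s = dotProduct w (M.adjugate.mulVec w) := by
    unfold dotProduct Matrix.mulVec dotProduct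
    refine Finset.sum_congr rfl fun r _ => ?_
    rw [Finset.mul_sum]
    refine Finset.sum_congr rfl fun s _ => ?_
    ring
  rw [h3]
  conv_lhs => rw [← hw]
  have h4 : dotProduct (M.mulVec fun _ => 1) (M.adjugate.mulVec (M.mulVec fun _ => 1)) =
      dotProduct (fun _ => 1) (M.mulVec (M.adjugate.mulVec (M.mulVec fun _ => 1))) := by
    rw [Matrix.dotProduct_mulVec (fun _ => 1) M, ← Matrix.mulVec_transpose, hsym]
  rw [h4, hw, h2]
  unfold dotProduct
  rw [Finset.mul_sum]
  refine Finset.sum_congr rfl fun v _ => ?_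
  rw [Pi.smul_apply, smul_eq_mul, one_mul]

end alg

/-- the matrix of the graph -/
theorem det_Mt {S : Finset GaussianInt} (hS : ∀ l ∈ S, OP l) :
    (MM (wt (fun l : {l // l ∈ S} => (l : ZI))) (em (fun l : {l // l ∈ S} => (l : ZI)))
      Finset.univ Finset.univ).det = (Mt gA gθ S).det := by
  classical
  have hp : PF (fun l : {l // l ∈ S} => (l : ZI)) :=
    ⟨fun i => toPP (hS i.1 i.2), Subtype.val_injective⟩
  set w := wt (fun l : {l // l ∈ S} => (l : ZI)) with hw
  set e := em (fun l : {l // l ∈ S} => (l : ZI)) with he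
  have he0 : ∀ v, e v v = 0 := em_self hp
  have hes : ∀ u v, e u v = e v u := em_symm hp
  congr 1
  ext v u
  have hA : ∀ a b : {l // l ∈ S}, gA (a : GaussianInt) (b : GaussianInt) = e a b := by
    intro a b
    rw [he]
    unfold gA Pool.Agent.Y699.em
    rw [leg_qr]
  have hθ : ∀ a : {l // l ∈ S}, gθ (a : GaussianInt) = w a := by
    intro a
    rw [hw]
    have h1 := (hS a.1 a.2).pm
    have hn := Pool.Agent.H304R2.EC.A1.norm_def' (a : GaussianInt)
    rcases h1 with ⟨h1, h2⟩ | ⟨h1, h2⟩
    · have c1 : ci (a : GaussianInt) = 1 := by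
        unfold ci
        rw [if_pos ⟨h1, h2⟩]
      have c2 : (a : GaussianInt).norm % 8 = 1 := by
        obtain ⟨x, hx⟩ : ∃ x, (a : GaussianInt).re = 4 * x + 1 := ⟨(a : GaussianInt).re / 4, by omega⟩
        obtain ⟨y, hy⟩ : ∃ y, (a : GaussianInt).im = 4 * y := ⟨(a : GaussianInt).im / 4, by omega⟩
        have : (a : GaussianInt).norm = 8 * (2 * (x * x) + x + 2 * (y * y)) + 1 := by
          rw [hn, hx, hy]
          ring
        rw [this]
        omega
      unfold gθ wt
      rw [c1, c2, if_neg (by norm_num), if_neg (by norm_num)]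
    · have c1 : ci (a : GaussianInt) = -1 := by
        unfold ci
        rw [if_neg (by omega), if_pos ⟨h1, h2⟩]
      have c2 : (a : GaussianInt).norm % 8 = 5 := by
        obtain ⟨x, hx⟩ : ∃ x, (a : GaussianInt).re = 4 * x + 3 := ⟨(a : GaussianInt).re / 4, by omega⟩
        obtain ⟨y, hy⟩ : ∃ y, (a : GaussianInt).im = 4 * y + 2 := ⟨(a : GaussianInt).im / 4, by omega⟩
        have : (a : GaussianInt).norm = 8 * (2 * (x * x) + 3 * x + 1 + 2 * (y * y) + 2 * y) + 5 := by
          rw [hn, hx, hy]
          ring
        rw [this]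
        omega
      unfold gθ wt
      rw [c1, c2, if_pos rfl, if_pos rfl]
  unfold MM Mt dg
  rw [if_pos (Finset.mem_univ u), if_pos (Finset.mem_univ v)]
  by_cases h : v = u
  · subst h
    rw [if_pos rfl, if_pos rfl, hθ v]
    congr 1
    have h3 : ∑ x ∈ S.erase (v : GaussianInt), gA (v : GaussianInt) x =
        ∑ x ∈ S, (if x = (v : GaussianInt) then 0 else gA (v : GaussianInt) x) := by
      rw [← Finset.add_sum_erase S _ v.2, if_pos rfl, zero_add]
      refine Finset.sum_congr rfl fun x hx => ?_
      rw [if_neg (Finset.mem_erase.1 hx).1]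
    rw [h3, ← Finset.sum_coe_sort S]
    refine Finset.sum_congr rfl fun x _ => ?_
    by_cases hx : x = v
    · rw [if_pos (by rw [hx]), hx, he0]
    · rw [if_neg (fun h' => hx (Subtype.ext h')), hA, hes]
  · rw [if_neg h, if_neg (fun h' => h h'.symm), hA]

/-- **the determinants** -/
theorem t_LAE : S_LAE := by
  classical
  intro S hS
  have hp : PF (fun l : {l // l ∈ S} => (l : ZI)) :=
    ⟨fun i => toPP (hS i.1 i.2), Subtype.val_injective⟩
  set w := wt (fun l : {l // l ∈ S} => (l : ZI)) with hw
  set e := em (fun l : {l // l ∈ S} => (l : ZI)) with he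
  have he0 : ∀ v, e v v = 0 := em_self hp
  have hes : ∀ u v, e u v = e v u := em_symm hp
  have hdet : (MM w e Finset.univ Finset.univ).det = (Mt gA gθ S).det := det_Mt hS
  have hz : ∀ x : ZMod 2, x = 1 ↔ x ≠ 0 := by decide
  constructor
  · intro h0
    have h1 : NN w e Finset.univ = (Mt gA gθ S).det := by
      have h2 : NN w e Finset.univ = (MM w e Finset.univ Finset.univ).det + NO w e Finset.univ := rfl
      rw [h2, NO_eq w e he0 hes, h0, mul_zero, add_zero, hdet]
    rw [h1]
    exact hz _
  · intro h0
    rw [NO_eq w e he0 hes, h0, mul_one, hdet]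
    exact hz _

end Pool.Agent.E8helper75.QK
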