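import Pool.Agent.E8helper75.QK.Rec2
import Pool.Agent.E8helper75.QK.Lae

/-!
The analytic input: the Hecke character, its central value and the criterion.
-/

set_option autoImplicit false
set_option linter.unusedSectionVars false

open Filter Complex
open scoped Topology PeriodPair
open H667R3 hiding sq
open Pool.Agent.TH936.CM Pool.Agent.W192.HK

namespace Pool.Agent.E8helper75.QK

open Pool.Agent.Y699
open Pool.Agent.E8helper21.Q2
open H385 (ZI RQ im1 nrm)
open Pool.Agent.H304R3.HK (tc HC LH)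
open Pool.Agent.W164.RC (tc_mul tc_star two2 prim_iff_dvd unit_norm unit_cases)
open Pool.Agent.Y697.MQ (OP gA gθ)
open Pool.Agent.Y697.PP (Mt)
open Pool.Agent.R428.G (toPP)

lemma cg_iff {Γ : Type} [LinearOrderedCommGroupWithZero Γ] {v : Valuation ℂ Γ} {x : ℂ} {a : ZMod 2}
    (h : Cg v x (uu a)) : v x ≤ 1 ∧ (v x = 1 ↔ a = 1) := by
  refine ⟨h.l, ?_⟩
  have h1 : ∀ b : ZMod 2, b ≠ 1 → b = 0 := by decide
  by_cases ha : a = 1
  · rw [ha, uu_one] at h
    refine ⟨fun _ => ha, fun _ => ?_⟩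
    have e : x = (x - 1) + 1 := by ring
    rw [e, Valuation.map_add_eq_of_lt_right, map_one]
    rw [map_one]
    exact h.s
  · have h0 := h1 a ha
    rw [h0, uu_zero] at h
    have h2 := h.s
    rw [sub_zero] at h2
    exact ⟨fun h3 => absurd h3 (ne_of_lt h2), fun h3 => absurd h3 ha⟩

theorem exists_X (hLK : S_LK) (hLKm : S_LKm) (hVAL : S_VAL) (hVALm : S_VALm) (hPRD : S_PRD)
    (hM0 : S_M0) (hHCK : S_HCK) (hHCKm : S_HCKm) (hLHE : S_LHE) (hLHEm : S_LHEm) (hCHE : S_CHE)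
    {S : Finset GaussianInt} (hS : ∀ l ∈ S, OP l) :
    ∃ (c : ZI) (X : ZI →* ℂ) (L : PeriodPair) (Ω m M : ℂ), HC c X ∧ X pi1 = 0 ∧
      (∀ z : ZI, PP z → z ∣ ∏ l ∈ S, l → X z = 0) ∧
      (∀ z : ZI, PP z → ¬ z ∣ ∏ l ∈ S, l →
        X z = (starRingEnd ℂ) (tc (Pool.Agent.Y699.q4 z (-B2 S)))) ∧
      GLat L Ω ∧ m ^ 4 = -8 ∧ LH X (1 / 2) = (starRingEnd ℂ) M ∧
      ∀ (Γ : Type) [LinearOrderedCommGroupWithZero Γ] (w : Valuation ℂ Γ), w 2 < 1 →
        w (M / (Ω / tc two2 * m * (1 + I) ^ S.card)) ≤ 1 ∧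
        (w (M / (Ω / tc two2 * m * (1 + I) ^ S.card)) = 1 ↔ (Mt gA gθ S).det ≠ 0) := by
  classical
  obtain ⟨L, Ω, hG, hK0⟩ := hM0
  set m := Kf L Ω (dz Ω) with hm
  set pr : {l // l ∈ S} → ZI := fun l => (l : ZI) with hpr
  have hp : PF pr := ⟨fun i => toPP (hS i.1 i.2), Subtype.val_injective⟩
  have hD : DD pr Finset.univ = ∏ l ∈ S, l := by
    unfold DD
    exact Finset.prod_coe_sort S (fun l => l)
  have hcard : (Finset.univ : Finset {l // l ∈ S}).card = S.card := by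
    rw [Finset.card_univ, Fintype.card_coe]
  have hB : -B2 S = -(2 * DD pr Finset.univ) := by rw [hD]; rfl
  obtain ⟨hC1, hC2⟩ := hCHE {l // l ∈ S} pr hp Finset.univ
  obtain ⟨hA1, hA2⟩ := t_LAE S hS
  have hun : un pi1 = 0 := un_even (by decide)
  have h01 : ∀ a : ZMod 2, a = 0 ∨ a = 1 := by decide
  rcases h01 (∑ i, Pool.Agent.Y699.wt pr i) with hw | hw
  · have hLim := t_LIM hLK
    have hex : ∀ T : Finset {l // l ∈ S}, ∃ l, Tendsto (RS (cx pr T)) (𝓝[>] 0) (𝓝 l) := fun T => by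
      haveI := H385.he1_finite (DD_ne hp T)
      letI := Fintype.ofFinite (RQ (DD pr T))
      exact ⟨_, exists_M hLim hG hp T⟩
    choose M hM using hex
    refine ⟨cn8 pr Finset.univ, X8 hp Finset.univ, L, Ω, m, M Finset.univ, hHCK _ pr hp _, ?_, ?_, ?_,
      hG, hK0, hLHE _ pr hp _ _ (hM _), ?_⟩
    · rw [X8_apply, hun, tc_zero, zero_mul]
    · intro z hz hd
      rw [← hD] at hd
      exact (hC1 z hz hd).1
    · intro z hz hd
      rw [← hD] at hd
      rw [hB]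
      exact (hC2 z hz hd).1 hw
    · intro Γ _ w hw2
      have h1 := mu_cg hLim hLK hVAL (fun κ _ _ w e he _ V => Pool.Agent.E8helper75.Q2.gr1 w e he V)
        hG hK0 hp hK0 hM (v := w) hw2 Finset.univ
      have h2 := cg_iff h1
      unfold mu at h2
      rw [hcard] at h2
      exact ⟨h2.1, h2.2.trans (hA1 hw)⟩
  · have hLim := t_LIMm hLKm
    have hex : ∀ T : Finset {l // l ∈ S}, ∃ l, Tendsto (RS (cy pr T)) (𝓝[>] 0) (𝓝 l) := fun T => by
      haveI := H385.he1_finite (DD_ne hp T)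
      letI := Fintype.ofFinite (RQ (DD pr T))
      exact ⟨_, exists_My hLim hG hp T⟩
    choose M hM using hex
    refine ⟨cn8 pr Finset.univ, X8m hp Finset.univ, L, Ω, m, M Finset.univ, hHCKm _ pr hp _, ?_, ?_,
      ?_, hG, hK0, hLHEm _ pr hp _ _ (hM _), ?_⟩
    · rw [X8m_apply, hun, tc_zero, zero_mul]
    · intro z hz hd
      rw [← hD] at hd
      exact (hC1 z hz hd).2
    · intro z hz hd
      rw [← hD] at hd
      rw [hB]
      exact (hC2 z hz hd).2 hw
    · intro Γ _ w hw2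
      have h1 := muy_cg hLim hLK hPRD hVALm hG hK0 hp hK0 hM (v := w) hw2 Finset.univ
      have h2 := cg_iff h1
      unfold mu at h2
      rw [hcard] at h2
      exact ⟨h2.1, h2.2.trans (hA2 hw)⟩

end Pool.Agent.E8helper75.QK
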