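import Pool.Agent.E8helper21.Q2.Lim
import Pool.Agent.E8helper75.QK.Stm

/-!
The limit of the regularized sums, for the second character.
-/

set_option autoImplicit false
set_option linter.unusedSectionVars false

open Filter Complex
open scoped Topology PeriodPair
open H667R3 hiding sq
open Pool.Agent.TH936.CM Pool.Agent.W192.HK

namespace Pool.Agent.E8helper75.QK

open Pool.Agent.Y699
open Pool.Agent.E8helper21.Q2
open H385 (ZI RQ im1 nrm)
open Pool.Agent.H304R3.HK (tc HC LH)
open Pool.Agent.W164.RC (tc_mul tc_star two2 prim_iff_dvd unit_norm unit_cases)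
open Pool.Agent.H304R2.EC.A1 (prim prim_mul prim_cancel prim_one prim_norm_odd prim_star eq_one_of_prim
  norm_def' re_mul' im_mul' eq_of_dvd prim_ne_zero exists_prim)

lemma conj_tI (b : ZI) : (starRingEnd ℂ) (tI b) = tJ b := by
  unfold tJ tI
  rw [map_zpow₀, conj_I, Zsqrtd.re_neg, Zsqrtd.im_neg]
  have e : -b.re + -b.im = -(b.re + b.im) := by ring
  rw [e, zpow_neg, ← inv_zpow, inv_I]

lemma y2_shift (b : ZI) : tc (y2 (1 + two2 * b)) = tJ b := by
  unfold y2
  rw [tc_star, (x2_shift b).1, conj_tI]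

lemma y2_shift8 (a q : ZI) : y2 (a + two2 * (two2 * q)) = y2 a := by
  unfold y2
  rw [x2_shift8]

/-- LIM for the second character -/
def S_LIMm : Prop := ∀ (L : PeriodPair) (Ω : ℂ), GLat L Ω → ∀ (D : ZI) (hD : prim D) [Fintype (RQ D)]
  (F : ZI → ℂ), (∀ a b, D ∣ a - b → F a = F b) →
  Tendsto (RS (open Classical in fun a => if prim a then tc (y2 a) * F a else 0)) (𝓝[>] 0)
    (𝓝 (tc (y2 D) * Ω / (tc D * tc two2) *
      ∑ q : RQ D, F (two2 * (two2 * q.out)) * Km L Ω (dz Ω + zq Ω D (two2 * q.out))))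

/-- **the limit** -/
theorem t_LIMm (h : S_LKm) : S_LIMm := by
  classical
  intro L Ω hG D hD _ F hper
  have hD0 : D ≠ 0 := prim_ne_zero hD
  have hDc := tc_ne hD0
  have h2c := tc_ne two2_ne
  have hΩ := hG.lat.ne
  set f : ZI → ℂ := fun a => if prim a then tc (y2 a) * F a else 0 with hf
  set c : ℂ := tc D * tc two2 / Ω with hc
  have hc0 : c ≠ 0 := div_ne_zero (mul_ne_zero hDc h2c) hΩ
  have hcn : 0 < Complex.normSq c := Complex.normSq_pos.2 hc0
  have hinj : Function.Injective (fun t : ZI => D + two2 * t) := by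
    intro a b hab
    have h1 : D + two2 * a = D + two2 * b := hab
    exact mul_left_cancel₀ two2_ne (by linear_combination h1 : two2 * a = two2 * b)
  -- bounded
  have hFb : ∃ C : ℝ, ∀ a, ‖f a‖ ≤ C := by
    refine ⟨∑ q : RQ D, ‖F q.out‖, fun a => ?_⟩
    have h1 : F a = F (Ideal.Quotient.mk (Ideal.span {D}) a).out := by
      apply hper
      rw [← Ideal.mem_span_singleton, ← Ideal.Quotient.eq, Ideal.Quotient.mk_out]
    rw [hf]
    show ‖(if prim a then tc (y2 a) * F a else 0)‖ ≤ _
    split_ifs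
    · rw [norm_mul, y2_tc, one_mul, h1]
      exact Finset.single_le_sum (f := fun q : RQ D => ‖F q.out‖) (fun _ _ => norm_nonneg _)
        (Finset.mem_univ _)
    · rw [norm_zero]
      exact Finset.sum_nonneg fun _ _ => norm_nonneg _
  obtain ⟨C, hC⟩ := hFb
  have hterm : ∀ p : RQ D × ZI, f (D + two2 * prt8 hD p) =
      tc (y2 D) * F (two2 * (two2 * p.1.out)) * tJ p.2 := by
    rintro ⟨q, b⟩
    rw [prt8_apply]
    have e1 : D + two2 * (two2 * q.out + D * b) = D * (1 + two2 * b) + two2 * (two2 * q.out) := by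
      ring
    have s1 := y2_shift b
    have s2 := (x2_shift b).2
    have hp : prim (D + two2 * (two2 * q.out + D * b)) := by
      rw [prim_iff_dvd]
      have h2 := (prim_iff_dvd _).1 hD
      have e : D + two2 * (two2 * q.out + D * b) - 1 = (D - 1) + two2 * (two2 * q.out + D * b) := by
        ring
      rw [e]
      exact dvd_add h2 (dvd_mul_right _ _)
    rw [hf]
    show (if prim (D + two2 * (two2 * q.out + D * b)) then
      tc (y2 (D + two2 * (two2 * q.out + D * b))) * F (D + two2 * (two2 * q.out + D * b)) else 0) = _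
    rw [if_pos hp]
    have e2 : F (D + two2 * (two2 * q.out + D * b)) = F (two2 * (two2 * q.out)) := by
      apply hper
      exact ⟨1 + two2 * b, by ring⟩
    rw [e2, e1, y2_shift8, y2_mul hD s2, tc_mul, s1]
    ring
  have e1 : ∀ δ : ℝ, RS f δ = ∑' t : ZI, f (D + two2 * t) * fd δ (tc (D + two2 * t)) := by
    intro δ
    unfold RS
    rw [← hinj.tsum_eq]
    intro a ha
    rw [Function.mem_support] at ha
    by_contra hcc
    apply ha
    have : f a = 0 := by
      rw [hf]
      show (if prim a then tc (y2 a) * F a else 0) = 0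
      rw [if_neg]
      intro h1
      apply hcc
      have h3 := (prim_iff_dvd _).1 h1
      have h4 := (prim_iff_dvd _).1 hD
      obtain ⟨c, hc'⟩ := dvd_sub h3 h4
      exact ⟨c, by
        show D + two2 * c = a
        rw [← hc']
        ring⟩
    rw [this, zero_mul]
  have key : ∀ δ : ℝ, 0 < δ → RS f δ = ∑ q : RQ D, tc (y2 D) * F (two2 * (two2 * q.out)) * c⁻¹ *
      ∑' b : ZI, tJ b * fd (δ * Complex.normSq c) (dz Ω + zq Ω D (two2 * q.out) + Ω * tc b) := by
    intro δ hδ
    have hs1 : Summable (fun t : ZI => f (D + two2 * t) * fd δ (tc (D + two2 * t))) :=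
      (summ_bd hG.lat hδ hC).comp_injective hinj
    have hs2 : Summable (fun p : RQ D × ZI =>
        f (D + two2 * prt8 hD p) * fd δ (tc (D + two2 * prt8 hD p))) :=
      ((prt8 hD).summable_iff (f := fun t => f (D + two2 * t) * fd δ (tc (D + two2 * t)))).2 hs1
    rw [e1, ← (prt8 hD).tsum_eq, hs2.tsum_prod' (fun q => hs2.prod_factor q), tsum_fintype]
    refine Finset.sum_congr (by ext; simp) fun q _ => ?_
    rw [← tsum_mul_left]
    refine tsum_congr fun b => ?_
    rw [hterm (q, b)]
    have e3 : tc (D + two2 * prt8 hD (q, b)) =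
        c * (dz Ω + zq Ω D (two2 * q.out) + Ω * tc b) := by
      rw [prt8_apply, tc_add, tc_mul, tc_add, tc_mul, tc_mul, dz_eq, tc_one, hc]
      unfold zq
      rw [tc_mul]
      field_simp
      ring
    rw [e3, fd_mul]
    ring
  have hlim : Tendsto (fun δ : ℝ => ∑ q : RQ D, tc (y2 D) * F (two2 * (two2 * q.out)) * c⁻¹ *
      ∑' b : ZI, tJ b * fd (δ * Complex.normSq c) (dz Ω + zq Ω D (two2 * q.out) + Ω * tc b))
      (𝓝[>] 0) (𝓝 (∑ q : RQ D, tc (y2 D) * F (two2 * (two2 * q.out)) * c⁻¹ *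
        Km L Ω (dz Ω + zq Ω D (two2 * q.out)))) := by
    refine tendsto_finsetSum Finset.univ fun q _ => ?_
    refine Tendsto.const_mul _ ?_
    exact tendsto_scale (h L Ω hG _ (dz_add hG hD (two2 * q.out))) hcn
  have e5 : tc (y2 D) * Ω / (tc D * tc two2) *
      ∑ q : RQ D, F (two2 * (two2 * q.out)) * Km L Ω (dz Ω + zq Ω D (two2 * q.out)) =
      ∑ q : RQ D, tc (y2 D) * F (two2 * (two2 * q.out)) * c⁻¹ *
        Km L Ω (dz Ω + zq Ω D (two2 * q.out)) := by
    rw [Finset.mul_sum]
    refine Finset.sum_congr rfl fun q _ => ?_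
    rw [hc, inv_div]
    ring
  rw [e5]
  refine hlim.congr' ?_
  filter_upwards [self_mem_nhdsWithin] with δ (hδ : 0 < δ)
  rw [key δ hδ]

end Pool.Agent.E8helper75.QK
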