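import Pool.Agent.E8helper21.Q2.Rec4
import Pool.Agent.E8helper75.QK.Lim

/-!
The sum over the divisors of the sums with the primes of the complement removed, for the second character.
-/

set_option autoImplicit false
set_option linter.unusedSectionVars false

open Filter Complex
open scoped Topology PeriodPair
open H667R3 hiding sq
open Pool.Agent.TH936.CM Pool.Agent.W192.HK

namespace Pool.Agent.E8helper75.QK

open Pool.Agent.Y699
open Pool.Agent.E8helper21.Q2
open H385 (ZI RQ im1 nrm)
open Pool.Agent.H304R3.HK (tc HC LH)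
open Pool.Agent.W164.RC (tc_mul tc_star two2 prim_iff_dvd unit_norm unit_cases)
open Pool.Agent.H304R2.EC.A1 (prim prim_mul prim_cancel prim_one prim_norm_odd prim_star eq_one_of_prim
  norm_def' re_mul' im_mul' eq_of_dvd prim_ne_zero exists_prim)

variable {L : PeriodPair} {Ω : ℂ} {ι : Type} [DecidableEq ι] {pr : ι → ZI}

open Classical in
/-- the coefficients with the primes of `T` removed -/
noncomputable def cyT (pr : ι → ZI) (S T : Finset ι) (a : ZI) : ℂ :=
  if prim a ∧ ∀ i ∈ T, ¬ pr i ∣ a then tc (y2 a * c4 pr S on1 a) else 0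

/-- the value of the character -/
noncomputable def csy (pr : ι → ZI) (S : Finset ι) (i : ι) : ℂ := tc (y2 (pr i) * c4 pr S on1 (pr i))

lemma cyT_empty (S : Finset ι) : cyT pr S ∅ = cy pr S := by
  classical
  funext a
  unfold cyT cy
  refine if_congr ?_ rfl rfl
  constructor
  · exact fun h => h.1
  · exact fun h => ⟨h, fun i hi => absurd hi (Finset.notMem_empty i)⟩

lemma cyT_bd (hp : PF pr) (S T : Finset ι) (a : ZI) : ‖cyT pr S T a‖ ≤ 1 := by
  unfold cyT
  split_ifs
  · rw [tc_mul, norm_mul, y2_tc, one_mul]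
    exact c4_bd hp S on1 a
  · simp

lemma RSy_insert (h : IsLat L RG Ω) (hp : PF pr) (S T : Finset ι) (i : ι) (hi : i ∉ T) {δ : ℝ}
    (hδ : 0 < δ) : RS (cyT pr S (insert i T)) δ = RS (cyT pr S T) δ -
      csy pr S i / tc (pr i) * RS (cyT pr S T) (δ * Complex.normSq (tc (pr i))) := by
  classical
  have e1 : (fun b => cyT pr S T (pr i * b)) = fun b => csy pr S i * cyT pr S T b := by
    funext b
    unfold cyT csy
    have h1 : (prim (pr i * b) ∧ ∀ j ∈ T, ¬ pr j ∣ pr i * b) ↔ (prim b ∧ ∀ j ∈ T, ¬ pr j ∣ b) := by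
      rw [prim_mul_iff (hp.pp i).prm]
      refine and_congr_right fun _ => forall₂_congr fun j hj => ?_
      rw [hp.dvd_mul (fun h' : i = j => hi (by rw [h']; exact hj))]
    by_cases h2 : prim b ∧ ∀ j ∈ T, ¬ pr j ∣ b
    · rw [if_pos h2, if_pos (h1.2 h2), c4_mul hp, y2_mul (hp.pp i).prm h2.1]
      simp only [tc_mul]
      ring
    · rw [if_neg h2, if_neg (fun h => h2 (h1.1 h)), mul_zero]
  have e2 := RS_dvd (hp.pp i).ne (cyT pr S T) δ
  rw [e1] at e2
  have e3 : RS (fun b => csy pr S i * cyT pr S T b) (δ * Complex.normSq (tc (pr i))) =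
      csy pr S i * RS (cyT pr S T) (δ * Complex.normSq (tc (pr i))) := by
    unfold RS
    rw [← tsum_mul_left]
    exact tsum_congr fun b => by ring
  rw [e3] at e2
  have e4 : RS (cyT pr S (insert i T)) δ = RS (cyT pr S T) δ -
      RS (fun a => if pr i ∣ a then cyT pr S T a else 0) δ := by
    have s1 := summ_bd h hδ (cyT_bd hp S T)
    have s2 := summ_bd h hδ (f := fun a => if pr i ∣ a then cyT pr S T a else 0) (C := 1) (by
      intro a
      split_ifs
      · exact cyT_bd hp S T a
      · simp)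
    unfold RS
    rw [← s1.tsum_sub s2]
    refine tsum_congr fun a => ?_
    rw [← sub_mul]
    congr 1
    unfold cyT
    by_cases h1 : pr i ∣ a
    · rw [if_neg, if_pos h1, sub_self]
      rintro ⟨-, h2⟩
      exact h2 i (Finset.mem_insert_self _ _) h1
    · rw [if_neg h1, sub_zero]
      refine if_congr (and_congr_right fun _ => ?_) rfl rfl
      constructor
      · intro h2 j hj
        exact h2 j (Finset.mem_insert_of_mem hj)
      · intro h2 j hj
        rcases Finset.mem_insert.1 hj with rfl | hj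
        · exact h1
        · exact h2 j hj
  rw [e4, e2]
  ring

theorem lim_cyT (h : IsLat L RG Ω) (hp : PF pr) (S : Finset ι) {l : ℂ}
    (hl : Tendsto (RS (cy pr S)) (𝓝[>] 0) (𝓝 l)) (T : Finset ι) :
    Tendsto (RS (cyT pr S T)) (𝓝[>] 0) (𝓝 (l * ∏ i ∈ T, (1 - csy pr S i / tc (pr i)))) := by
  induction T using Finset.induction_on with
  | empty => rw [Finset.prod_empty, mul_one, cyT_empty]; exact hl
  | insert i T hi ih =>
    have hn : 0 < Complex.normSq (tc (pr i)) := Complex.normSq_pos.2 (tc_ne (hp.pp i).ne)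
    have h1 := ih.sub ((tendsto_scale ih hn).const_mul (csy pr S i / tc (pr i)))
    rw [Finset.prod_insert hi]
    have e : l * ∏ i ∈ T, (1 - csy pr S i / tc (pr i)) - csy pr S i /
        tc (pr i) * (l * ∏ i ∈ T, (1 - csy pr S i / tc (pr i))) =
        l * ((1 - csy pr S i / tc (pr i)) *
          ∏ i ∈ T, (1 - csy pr S i / tc (pr i))) := by ring
    rw [e] at h1
    refine h1.congr' ?_
    filter_upwards [self_mem_nhdsWithin] with δ (hδ : 0 < δ)
    exact (RSy_insert h hp S T i hi hδ).symm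

theorem sum_cyT (V : Finset ι) (hp : PF pr) (a : ZI) :
    ∑ S ∈ V.powerset, cyT pr S (V \ S) a =
      (open Classical in if prim a then tc (y2 a) * FV pr V a else 0) := by
  classical
  by_cases ha : prim a
  · rw [if_pos ha]
    by_cases hc : ∃ i ∈ V, pr i ∣ a
    · obtain ⟨i, hi, hia⟩ := hc
      have h1 : FV pr V a = 0 := by
        unfold FV
        rw [if_neg]
        intro h2
        exact h2 i hi hia
      rw [h1, mul_zero]
      refine Finset.sum_eq_zero fun S _ => ?_
      by_cases hS : i ∈ S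
      · unfold cyT
        rw [c4_zero _ hS hia]
        simp [tc_zero]
      · unfold cyT
        rw [if_neg]
        rintro ⟨-, h2⟩
        exact h2 i (Finset.mem_sdiff.2 ⟨hi, hS⟩) hia
    · push Not at hc
      have h1 : ∀ S ∈ V.powerset, cyT pr S (V \ S) a = tc (y2 a) * ∏ i ∈ S, tc (q4 (pr i) a) := by
        intro S _
        unfold cyT
        rw [if_pos ⟨ha, fun i hi => hc i (Finset.mem_sdiff.1 hi).1⟩, c4_one_exp hp, tc_mul, tc_prod]
      rw [Finset.sum_congr rfl h1, ← Finset.mul_sum, ← Finset.prod_one_add]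
      unfold FV
      rw [if_pos hc]
  · rw [if_neg ha]
    unfold cyT
    refine Finset.sum_eq_zero fun S _ => ?_
    rw [if_neg (fun h => ha h.1)]

/-- existence of the limits -/
theorem exists_My (h : S_LIMm) (hG : GLat L Ω) (hp : PF pr) (S : Finset ι) [Fintype (RQ (DD pr S))] :
    Tendsto (RS (cy pr S)) (𝓝[>] 0) (𝓝 (tc (y2 (DD pr S)) * Ω / (tc (DD pr S) * tc two2) *
      ∑ q : RQ (DD pr S), tc (c4 pr S on1 (two2 * (two2 * q.out))) *
        Km L Ω (dz Ω + zq Ω (DD pr S) (two2 * q.out)))) := by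
  have h1 := h L Ω hG (DD pr S) (DD_prim hp S) (fun a => tc (c4 pr S on1 a)) (fun a b hab => by
    rw [c4_per hp S on1 hab])
  have e : (open Classical in fun a => if prim a then tc (y2 a) * tc (c4 pr S on1 a) else 0) =
      cy pr S := by
    funext a
    unfold cy
    rw [tc_mul]
  rw [e] at h1
  exact h1

/-- **the relation** -/
theorem rel_Ty (h : S_LIMm) (hG : GLat L Ω) (hp : PF pr) {M : Finset ι → ℂ}
    (hM : ∀ S, Tendsto (RS (cy pr S)) (𝓝[>] 0) (𝓝 (M S))) (V : Finset ι)
    [Fintype (RQ (DD pr V))] :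
    ∑ S ∈ V.powerset, M S * ∏ i ∈ V \ S, (1 - csy pr S i / tc (pr i)) =
      tc (y2 (DD pr V)) * Ω / (tc (DD pr V) * tc two2) *
        ∑ q : RQ (DD pr V), FV pr V (two2 * (two2 * q.out)) *
          Km L Ω (dz Ω + zq Ω (DD pr V) (two2 * q.out)) := by
  classical
  have h1 := h L Ω hG (DD pr V) (DD_prim hp V) (FV pr V) (fun a b hab => FV_per hp V hab)
  have h2 : Tendsto (fun δ : ℝ => ∑ S ∈ V.powerset, RS (cyT pr S (V \ S)) δ) (𝓝[>] 0)
      (𝓝 (∑ S ∈ V.powerset, M S * ∏ i ∈ V \ S, (1 - csy pr S i / tc (pr i)))) :=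
    tendsto_finsetSum _ fun S _ => lim_cyT hG.lat hp S (hM S) (V \ S)
  refine tendsto_nhds_unique h2 (h1.congr' ?_)
  filter_upwards [self_mem_nhdsWithin] with δ (hδ : 0 < δ)
  unfold RS
  rw [← Summable.tsum_finsetSum (fun S _ => summ_bd hG.lat hδ (cyT_bd hp S (V \ S)))]
  refine tsum_congr fun a => ?_
  rw [← Finset.sum_mul, sum_cyT V hp a]

end Pool.Agent.E8helper75.QK
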