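import Pool.Agent.E8helper75.QK.Rec1
import Pool.Agent.E8helper75.Q2.Gr

/-!
The evaluation and the recursion modulo the prime above two, for the second character.
-/

set_option autoImplicit false
set_option linter.unusedSectionVars false

open Filter Complex
open scoped Topology PeriodPair
open H667R3 hiding sq
open Pool.Agent.TH936.CM Pool.Agent.W192.HK

namespace Pool.Agent.E8helper75.QK

open Pool.Agent.Y699
open Pool.Agent.E8helper21.Q2
open H385 (ZI RQ im1 nrm)
open Pool.Agent.H304R3.HK (tc HC LH)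
open Pool.Agent.W164.RC (tc_mul tc_star two2 prim_iff_dvd unit_norm unit_cases)
open Pool.Agent.H304R2.EC.A1 (prim prim_mul prim_cancel prim_one prim_norm_odd prim_star eq_one_of_prim
  norm_def' re_mul' im_mul' eq_of_dvd prim_ne_zero exists_prim)

variable {L : PeriodPair} {Ω : ℂ}

/-- the periodicity -/
theorem t_KPm (h : S_LK) (hG : GLat L Ω) {z : ℂ} (hz : z ∉ L.lattice) (m : ZI) :
    Km L Ω (z + Ω * tc (two2 * m)) = Km L Ω z := by
  unfold Km
  have hz' : -z ∉ L.lattice := fun h => hz (by have := neg_mem h; rwa [neg_neg] at this)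
  have e : -(z + Ω * tc (two2 * m)) = -z + Ω * tc (two2 * (-m)) := by
    rw [mul_neg, tc_neg]
    ring
  rw [e, t_KP h hG hz']

lemma Km_zero (hPRD : S_PRD) (hG : GLat L Ω) (hM0 : Kf L Ω (dz Ω) ^ 4 = -8) :
    Km L Ω (dz Ω) = 0 := by
  have h1 := hPRD L Ω hG (dz Ω) hG.dz_notMem
  have h2 : X0 L Ω - ℘[L] (dz Ω) = 0 := by
    unfold X0
    ring
  rw [h2] at h1
  have h3 : Kf L Ω (dz Ω) ≠ 0 := by
    intro h
    rw [h] at hM0
    norm_num at hM0
  unfold Km
  rw [(mul_eq_zero.1 h1).resolve_left h3, neg_zero]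

lemma RO_empty {κ : Type} [Fintype κ] [DecidableEq κ] (w : κ → ZMod 2) : RO w ∅ = 0 := by
  unfold RO
  simp

lemma RO_eq {κ : Type} [Fintype κ] [DecidableEq κ] (w : κ → ZMod 2) {V : Finset κ} (h : V.Nonempty) :
    RO w V = RR w V := by
  unfold RO RR
  rw [if_neg (Finset.card_pos.2 h).ne']

section ev

variable {ι : Type} [Fintype ι] [DecidableEq ι] {pr : ι → ZI}
variable {Γ : Type} [LinearOrderedCommGroupWithZero Γ] {v : Valuation ℂ Γ} (h2 : v 2 < 1)

include h2 in
/-- **the evaluation** -/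
theorem ev_ney (hK : S_LK) (hVal : S_VALm) (hG : GLat L Ω) (hp : PF pr) {m : ℂ} (hm : m ^ 4 = -8)
    {V : Finset ι} (hV : V.Nonempty) [Fintype (RQ (DD pr V))] :
    Cg v (∑ q : RQ (DD pr V), tc (Zf pr V (two2 * (two2 * q.out))) *
      (Km L Ω (dz Ω + zq Ω (DD pr V) (two2 * q.out)) / m)) (uu (RR (wt pr) V)) := by
  classical
  have hD : prim (DD pr V) := DD_prim hp V
  have hD0 : DD pr V ≠ 0 := prim_ne_zero hD
  obtain ⟨r, hr⟩ := hV
  have h0 : tc (Zf pr V (two2 * (two2 * (0 : RQ (DD pr V)).out))) *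
      (Km L Ω (dz Ω + zq Ω (DD pr V) (two2 * (0 : RQ (DD pr V)).out)) / m) = 0 := by
    have h1 : Zf pr V (two2 * (two2 * (0 : RQ (DD pr V)).out)) = 0 := by
      unfold Zf
      rw [if_neg]
      intro h
      apply h r hr
      have h3 : DD pr V ∣ (0 : RQ (DD pr V)).out := (out_zero _).2 rfl
      exact (((dvd_DD hr).trans h3).mul_left _).mul_left _
    rw [h1, tc_zero, zero_mul]
  rw [half_sum hD (fun q : RQ (DD pr V) => tc (Zf pr V (two2 * (two2 * q.out))) *
      (Km L Ω (dz Ω + zq Ω (DD pr V) (two2 * q.out)) / m)) h0]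
  have key : ∀ q : RQ (DD pr V), Cg v (if eq' (DD pr V) q < eq' (DD pr V) (-q) then
      tc (Zf pr V (two2 * (two2 * q.out))) * (Km L Ω (dz Ω + zq Ω (DD pr V) (two2 * q.out)) / m) +
      tc (Zf pr V (two2 * (two2 * (-q).out))) * (Km L Ω (dz Ω + zq Ω (DD pr V) (two2 * (-q).out)) / m)
      else 0) (uu (if eq' (DD pr V) q < eq' (DD pr V) (-q) then gm pr V q.out else 0)) := by
    intro q
    by_cases hq : eq' (DD pr V) q < eq' (DD pr V) (-q)
    · rw [if_pos hq, if_pos hq]
      have hq0 : q ≠ 0 := by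
        rintro rfl
        rw [neg_zero] at hq
        exact lt_irrefl _ hq
      have hnd : ¬ DD pr V ∣ two2 * q.out := by
        intro h
        exact hq0 ((out_zero q).1 ((cop_two2 hD).symm.dvd_of_dvd_mul_left h))
      have hOT := zq_OT hG hD hnd
      set P := zq Ω (DD pr V) (two2 * q.out) with hP
      obtain ⟨c1, c2⟩ := hVal L Ω hG Γ v h2 m hm P hOT
      obtain ⟨c, hc⟩ := out_neg (DD pr V) q
      have hz : dz Ω - P ∉ L.lattice := by
        have := dz_add hG hD (-(two2 * q.out))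
        rwa [zq_neg, ← sub_eq_add_neg] at this
      have e1 : Km L Ω (dz Ω + zq Ω (DD pr V) (two2 * (-q).out)) = Km L Ω (dz Ω - P) := by
        rw [← t_KPm hK hG hz c]
        congr 1
        have hc' := congrArg tc (show (-q).out = -q.out + DD pr V * c by linear_combination hc)
        rw [hP]
        unfold zq
        have hDc := tc_ne hD0
        rw [tc_mul two2 (-q).out, hc']
        simp only [tc_mul, tc_add, tc_neg]
        field_simp
        ring
      have e2 : Zf pr V (two2 * (two2 * (-q).out)) = Zf pr V (-(two2 * (two2 * q.out))) := by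
        apply Zf_per hp
        exact ⟨two2 * (two2 * c), by linear_combination (two2 * two2) * hc⟩
      rw [e1, e2]
      set a := two2 * (two2 * q.out) with ha
      set K1 := Km L Ω (dz Ω + P)
      set K2' := Km L Ω (dz Ω - P)
      obtain ⟨w, hw⟩ := Zf_diff hp V a
      have e3 : tc (Zf pr V a) * (K1 / m) + tc (Zf pr V (-a)) * (K2' / m) =
          tc (Zf pr V a) * ((K1 + K2') / m) + tc w * ((1 + I) * K2' / m) := by
        have h5 : tc (Zf pr V (-a)) = tc (Zf pr V a) + (1 + I) * tc w := by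
          have := congrArg tc hw
          rw [tc_sub, tc_mul, tc_pi1] at this
          linear_combination this
        rw [h5]
        ring
      rw [e3]
      have c3 : Cg v (tc (Zf pr V a)) (uu (gm pr V q.out)) := by
        rw [← gm_two2 hp, ← tc_gz]
        exact cg_dvd h2 (Zf_cong hp V a)
      have c4 := c3.mul c1
      have c5 : Cg v (tc w * ((1 + I) * K2' / m)) 0 := by
        apply Cg.zero
        rw [map_mul]
        exact lt_of_le_of_lt (mul_le_of_le_one_left' (tc_le h2 w)) c2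
      have c6 := c4.add c5
      rwa [mul_one, add_zero] at c6
    · rw [if_neg hq, if_neg hq, uu_zero]
      exact Cg.refl (by rw [map_zero]; exact zero_le_one)
  have h5 := Cg.sum Finset.univ fun q _ => key q
  refine h5.trans ?_
  rw [← half_all hp ⟨r, hr⟩]
  exact (uu_sum h2 _ _).symm

include h2 in
theorem ev_emptyy (hK : S_LK) (hPRD : S_PRD) (hG : GLat L Ω) (hM0 : Kf L Ω (dz Ω) ^ 4 = -8) {m : ℂ}
    [Fintype (RQ (DD pr ∅))] :
    Cg v (∑ q : RQ (DD pr ∅), tc (Zf pr ∅ (two2 * (two2 * q.out))) *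
      (Km L Ω (dz Ω + zq Ω (DD pr ∅) (two2 * q.out)) / m)) 0 := by
  classical
  have hD : DD pr ∅ = 1 := by unfold DD; exact Finset.prod_empty
  have h1 : ∀ q : RQ (DD pr ∅), tc (Zf pr ∅ (two2 * (two2 * q.out))) *
      (Km L Ω (dz Ω + zq Ω (DD pr ∅) (two2 * q.out)) / m) = 0 := by
    intro q
    have e2 : zq Ω (DD pr ∅) (two2 * q.out) = Ω * tc (two2 * q.out) := by
      unfold zq
      have : tc (DD pr ∅) = 1 := by rw [hD, tc_one]
      rw [this, div_one]
    rw [e2, t_KPm hK hG hG.dz_notMem, Km_zero hPRD hG hM0, zero_div, mul_zero]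
  rw [Finset.sum_congr rfl fun q _ => h1 q, Finset.sum_const_zero]
  exact Cg.refl (by rw [map_zero]; exact zero_le_one)

end ev

/-! ### the recursion -/

section GR

open Finset Pool.Agent.Y699.Ff

variable {κ : Type} [Fintype κ] [DecidableEq κ]

theorem gro (w : κ → ZMod 2) (e : κ → κ → ZMod 2) (he : ∀ v, e v v = 0) (V : Finset κ) :
    ∑ S ∈ V.powerset, NO w e S * ∏ v ∈ V \ S, (w v + ∑ u ∈ S, e u v) = RO w V := by
  unfold NO
  simp_rw [sum_mul]
  have h1 : ∑ S ∈ V.powerset, ∑ r ∈ S, w r * (MM (fun v => w v + e r v) e (S.erase r)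
        (S.erase r)).det * ∏ v ∈ V \ S, (w v + ∑ u ∈ S, e u v) =
      ∑ r ∈ V, ∑ S ∈ V.powerset.filter (fun S => r ∈ S),
        w r * (MM (fun v => w v + e r v) e (S.erase r) (S.erase r)).det *
          ∏ v ∈ V \ S, (w v + ∑ u ∈ S, e u v) := by
    refine Finset.sum_comm' fun S r => ?_
    rw [mem_powerset, mem_filter, mem_powerset]
    constructor
    · rintro ⟨h1, h2⟩
      exact ⟨⟨h1, h2⟩, h1 h2⟩
    · rintro ⟨⟨h1, h2⟩, -⟩
      exact ⟨h1, h2⟩
  have h2 : ∀ r ∈ V, ∑ S ∈ V.powerset.filter (fun S => r ∈ S),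
        w r * (MM (fun v => w v + e r v) e (S.erase r) (S.erase r)).det *
          ∏ v ∈ V \ S, (w v + ∑ u ∈ S, e u v) = w r * if (V.erase r).card = 0 then 1 else 0 := by
    intro r hr
    rw [← Pool.Agent.E8helper75.Q2.part1 (fun v => w v + e r v) e he (V.erase r), mul_sum]
    refine Finset.sum_bij' (fun S _ => S.erase r) (fun J _ => insert r J) ?_ ?_ ?_ ?_ ?_
    · intro S hS
      rw [mem_filter, mem_powerset] at hS
      rw [mem_powerset]
      exact erase_subset_erase r hS.1
    · intro J hJ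
      rw [mem_powerset] at hJ
      rw [mem_filter, mem_powerset]
      refine ⟨insert_subset hr (hJ.trans (erase_subset _ _)), mem_insert_self _ _⟩
    · intro S hS
      rw [mem_filter] at hS
      exact insert_erase hS.2
    · intro J hJ
      rw [mem_powerset] at hJ
      exact erase_insert (fun h => (mem_erase.1 (hJ h)).1 rfl)
    · intro S hS
      rw [mem_filter, mem_powerset] at hS
      rw [mul_assoc]
      congr 2
      have h3 : V.erase r \ S.erase r = V \ S := by
        ext v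
        simp only [Finset.mem_sdiff, Finset.mem_erase]
        constructor
        · rintro ⟨⟨h1, h2⟩, h3⟩
          exact ⟨h2, fun h => h3 ⟨h1, h⟩⟩
        · rintro ⟨h1, h2⟩
          exact ⟨⟨fun h => h2 (h ▸ hS.2), h1⟩, fun h => h2 h.2⟩
      rw [h3]
      refine Finset.prod_congr rfl fun v _ => ?_
      rw [← Finset.add_sum_erase S (fun u => e u v) hS.2]
      ring
  rw [h1, Finset.sum_congr rfl h2]
  unfold RO
  by_cases h3 : V.card = 1
  · rw [if_pos h3]
    refine Finset.sum_congr rfl fun r hr => ?_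
    rw [if_pos (by rw [card_erase_of_mem hr]; omega), mul_one]
  · rw [if_neg h3]
    refine Finset.sum_eq_zero fun r hr => ?_
    rw [if_neg, mul_zero]
    rw [card_erase_of_mem hr]
    have := card_pos.2 ⟨r, hr⟩
    omega

end GR

variable {ι : Type} [Fintype ι] [DecidableEq ι] {pr : ι → ZI}

lemma star_sz (a : ZMod 2) : star (sz a) = sz a := by revert a; decide

lemma y2_sq (hp : PF pr) (j : ι) : y2 (pr j) ^ 2 = sz (wt pr j) := by
  unfold y2
  rw [← star_pow, x2_sq hp, star_sz]

section val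

variable {Γ : Type} [LinearOrderedCommGroupWithZero Γ] {v : Valuation ℂ Γ} (h2 : v 2 < 1)

include h2

/-- the factors -/
theorem fac_cgy (hp : PF pr) {S : Finset ι} {j : ι} (hj : j ∉ S) :
    Cg v ((1 - csy pr S j / tc (pr j)) / (1 + I))
      (uu (wt pr j + ∑ u ∈ S, Pool.Agent.Y699.em pr u j)) := by
  set y := y2 (pr j) * c4 pr S on1 (pr j) with hy
  have hyn : y.norm = 1 := by
    rw [hy, Zsqrtd.norm_mul, y2_norm, c4_norm hp, one_mul]
    intro u hu h'
    exact hj (by rw [← hp.inj ((hp.pp u).eq_of_dvd (hp.pp j) h')]; exact hu)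
  have hy2 : y ^ 2 = sz (wt pr j + ∑ u ∈ S, Pool.Agent.Y699.em pr u j) := by
    rw [hy, mul_pow, y2_sq hp, sz_add, sz_sum, c4_one_exp hp, ← Finset.prod_pow]
    congr 1
    refine Finset.prod_congr rfl fun u hu => ?_
    rw [qr_sz hp (fun h : u = j => hj (by rw [← h]; exact hu))]
  have hny : (-y).norm = 1 := by rw [Zsqrtd.norm_neg]; exact hyn
  obtain ⟨z1, z2⟩ := zf_eq hny
  obtain ⟨t, ht⟩ := (prim_iff_dvd (pr j)).1 (hp.pp j).prm
  have hπ := tc_ne (hp.pp j).ne
  have h1I := one_I_ne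
  have e1 : (1 - csy pr S j / tc (pr j)) / (1 + I) = tc (zf (-y) + 2 * t) / tc (pr j) := by
    have e2 : pr j - y = pi1 * (zf (-y) + 2 * t) := by
      have e3 : two2 = pi1 * 2 := by decide
      rw [e3] at ht
      linear_combination ht + z1
    have e4 := congrArg tc e2
    rw [tc_sub, tc_mul pi1, tc_pi1] at e4
    have e5 : csy pr S j = tc y := rfl
    rw [e5]
    field_simp
    linear_combination e4
  rw [e1]
  have c1 : Cg v (tc (zf (-y) + 2 * t)) (uu (wt pr j + ∑ u ∈ S, Pool.Agent.Y699.em pr u j)) := by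
    have c2 : pi1 ∣ (zf (-y) + 2 * t) - (if (-y) ^ 2 = -1 then 1 else 0) := by
      have e3 : (zf (-y) + 2 * t) - (if (-y) ^ 2 = -1 then 1 else 0) =
          (zf (-y) - (if (-y) ^ 2 = -1 then 1 else 0)) + 2 * t := by ring
      rw [e3]
      refine dvd_add z2 (Dvd.dvd.mul_right ⟨⟨1, -1⟩, by decide⟩ _)
    have c3 := cg_dvd (v := v) h2 c2
    have e4 : tc (if (-y) ^ 2 = -1 then 1 else 0) =
        uu (wt pr j + ∑ u ∈ S, Pool.Agent.Y699.em pr u j) := by
      rw [neg_sq, hy2]
      unfold uu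
      by_cases h : wt pr j + ∑ u ∈ S, Pool.Agent.Y699.em pr u j = 1
      · rw [if_pos h, if_pos ((sz_iff _).2 h), tc_one]
      · rw [if_neg h, if_neg (fun h' => h ((sz_iff _).1 h')), tc_zero]
    rwa [e4] at c3
  obtain ⟨p1, p2⟩ := v_prim (v := v) h2 (hp.pp j).prm
  have c4 : Cg v (tc (pr j))⁻¹ 1 := by
    refine ⟨by rw [map_inv₀, p2, inv_one], by rw [map_one], ?_⟩
    have e : (tc (pr j))⁻¹ - 1 = -(tc (pr j) - 1) * (tc (pr j))⁻¹ := by
      field_simp
      ring
    rw [e, map_mul, map_inv₀, p2, inv_one, mul_one, Valuation.map_neg]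
    exact p1.s
  have c5 := c1.mul c4
  rw [mul_one] at c5
  rwa [div_eq_mul_inv]

end val

/-- **the congruence** -/
theorem muy_cg (hLim : S_LIMm) (hK : S_LK) (hPRD : S_PRD) (hVal : S_VALm) (hG : GLat L Ω)
    (hM0 : Kf L Ω (dz Ω) ^ 4 = -8) (hp : PF pr) {m : ℂ} (hm : m ^ 4 = -8) {M : Finset ι → ℂ}
    (hM : ∀ S, Tendsto (RS (cy pr S)) (𝓝[>] 0) (𝓝 (M S)))
    {Γ : Type} [LinearOrderedCommGroupWithZero Γ] {v : Valuation ℂ Γ} (h2 : v 2 < 1) :
    ∀ V : Finset ι, Cg v (mu Ω m M V) (uu (NO (wt pr) (Pool.Agent.Y699.em pr) V)) := by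
  classical
  intro V
  induction V using Finset.strongInduction with
  | H V ih =>
    haveI := H385.he1_finite (DD_ne hp V)
    letI := Fintype.ofFinite (RQ (DD pr V))
    have hm0 : m ≠ 0 := by
      rintro rfl
      norm_num at hm
    have hΩ := hG.lat.ne
    have h2c := tc_ne two2_ne
    have h1I := one_I_ne
    have hDc := tc_ne (DD_ne hp V)
    have hD := DD_prim hp V
    have hrel := rel_Ty hLim hG hp hM V
    -- the right hand side
    set X : ℂ := ∑ q : RQ (DD pr V), tc (Zf pr V (two2 * (two2 * q.out))) *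
      (Km L Ω (dz Ω + zq Ω (DD pr V) (two2 * q.out)) / m) with hX
    have hXc : Cg v X (uu (RO (wt pr) V)) := by
      rcases V.eq_empty_or_nonempty with rfl | hne
      · rw [RO_empty, uu_zero]
        exact ev_emptyy (pr := pr) h2 hK hPRD hG hM0
      · rw [RO_eq _ hne]
        exact ev_ney h2 hK hVal hG hp hm hne
    have hR : ∑ S ∈ V.powerset, mu Ω m M S *
        ∏ j ∈ V \ S, ((1 - csy pr S j / tc (pr j)) / (1 + I)) =
        tc (y2 (DD pr V)) / tc (DD pr V) * X := by
      have e1 : ∀ S ∈ V.powerset, mu Ω m M S *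
          ∏ j ∈ V \ S, ((1 - csy pr S j / tc (pr j)) / (1 + I)) =
          (M S * ∏ i ∈ V \ S, (1 - csy pr S i / tc (pr i))) /
            (Ω / tc two2 * m * (1 + I) ^ V.card) := by
        intro S hS
        rw [Finset.mem_powerset] at hS
        have e2 : (V \ S).card + S.card = V.card := Finset.card_sdiff_add_card_eq_card hS
        rw [Finset.prod_div_distrib, Finset.prod_const, ← e2, pow_add]
        unfold mu
        field_simp
      rw [Finset.sum_congr rfl e1, ← Finset.sum_div, hrel, hX, Finset.mul_sum, Finset.mul_sum,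
        Finset.sum_div]
      refine Finset.sum_congr rfl fun q _ => ?_
      rw [FV_eq hp]
      field_simp
    have hYc : Cg v (tc (y2 (DD pr V)) / tc (DD pr V) * X) (uu (RO (wt pr) V)) := by
      obtain ⟨p1, p2⟩ := v_prim (v := v) h2 hD
      have c1 := cg_one (v := v) h2 (y2_norm (DD pr V))
      have c2 : Cg v (tc (y2 (DD pr V)) / tc (DD pr V)) 1 := by
        refine ⟨by rw [map_div₀, p2, div_one]; exact c1.l, by rw [map_one], ?_⟩
        have e : tc (y2 (DD pr V)) / tc (DD pr V) - 1 =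
            ((tc (y2 (DD pr V)) - 1) - (tc (DD pr V) - 1)) / tc (DD pr V) := by
          field_simp
          ring
        rw [e, map_div₀, p2, div_one]
        exact v.map_sub_lt c1.s p1.s
      have := c2.mul hXc
      rwa [one_mul] at this
    -- the two sums
    have hVm : V ∈ V.powerset := Finset.mem_powerset_self V
    rw [← Finset.add_sum_erase _ _ hVm, Finset.sdiff_self, Finset.prod_empty, mul_one] at hR
    have hN := gro (wt pr) (Pool.Agent.Y699.em pr) (em_self hp) V
    rw [← Finset.add_sum_erase _ _ hVm, Finset.sdiff_self, Finset.prod_empty, mul_one] at hN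
    have hsum : Cg v (∑ S ∈ V.powerset.erase V, mu Ω m M S *
        ∏ j ∈ V \ S, ((1 - csy pr S j / tc (pr j)) / (1 + I)))
        (∑ S ∈ V.powerset.erase V, uu (NO (wt pr) (Pool.Agent.Y699.em pr) S *
          ∏ j ∈ V \ S, (wt pr j + ∑ u ∈ S, Pool.Agent.Y699.em pr u j))) := by
      refine Cg.sum _ fun S hS => ?_
      rw [Finset.mem_erase, Finset.mem_powerset] at hS
      have hlt : S ⊂ V := Finset.ssubset_iff_subset_ne.2 ⟨hS.2, hS.1⟩
      rw [uu_mul, uu_prod]
      refine (ih S hlt).mul (Cg.prod _ fun j hj => ?_)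
      exact fac_cgy h2 hp (Finset.mem_sdiff.1 hj).2
    have e1 : mu Ω m M V = tc (y2 (DD pr V)) / tc (DD pr V) * X -
        ∑ S ∈ V.powerset.erase V, mu Ω m M S *
          ∏ j ∈ V \ S, ((1 - csy pr S j / tc (pr j)) / (1 + I)) := by
      linear_combination hR
    have c6 := hYc.sub (hsum.trans (uu_sum h2 _ _).symm)
    rw [← e1] at c6
    refine c6.trans ?_
    have e2 : RO (wt pr) V = NO (wt pr) (Pool.Agent.Y699.em pr) V +
        ∑ S ∈ V.powerset.erase V, NO (wt pr) (Pool.Agent.Y699.em pr) S *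
          ∏ j ∈ V \ S, (wt pr j + ∑ u ∈ S, Pool.Agent.Y699.em pr u j) := hN.symm
    rw [e2]
    set a := NO (wt pr) (Pool.Agent.Y699.em pr) V
    set b := ∑ S ∈ V.powerset.erase V, NO (wt pr) (Pool.Agent.Y699.em pr) S *
          ∏ j ∈ V \ S, (wt pr j + ∑ u ∈ S, Pool.Agent.Y699.em pr u j)
    have c7 := (uu_add (v := v) h2 a b).sub (Cg.refl (v_uu (v := v) b))
    rwa [add_sub_cancel_right] at c7


end Pool.Agent.E8helper75.QK
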